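import Pool.Agent.TH990.FA.Defs
import Pool.Agent.H12R2.Sep.WinHalf
import Pool.Agent.H12R2.Sep.Win2
import Pool.Agent.H12R2.Sep.Win1

/-!
Open circuits around the centre of an annulus: the probability that there is none is polynomially
small.
-/

set_option autoImplicit false

namespace Pool.Agent.TH828.FA

open H974 H12S Pool.Agent.TH990.FA

/-! ### Walks with a crossing number -/

/-- A walk whose crossing number at `c` is `x`. -/
def W (c : Vtx) (R : Vtx → Vtx → Prop) (u v : Vtx) (x : ZMod 2) : Prop :=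
  ∃ f, Wr R u v f ∧ f c = x

theorem W.trans {c : Vtx} {R : Vtx → Vtx → Prop} {u v w : Vtx} {x y : ZMod 2}
    (h1 : W c R u v x) (h2 : W c R v w y) : W c R u w (x + y) := by
  obtain ⟨f, hf, rfl⟩ := h1
  induction hf with
  | nil u =>
    obtain ⟨g, hg, rfl⟩ := h2
    exact ⟨g, hg, by simp⟩
  | cons hR _ ih =>
    obtain ⟨g, hg, hgc⟩ := ih h2
    refine ⟨_, Wr.cons hR hg, ?_⟩
    simp only [hgc]
    ring

theorem W.of_reach {c : Vtx} {E E' : Set Edg} (hE : E ⊆ E') {h : Vtx → ZMod 2}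
    (hc : ∀ u v, Adj E u v → cn c u v = h u + h v) {u v : Vtx} (hr : Reach E u v) :
    W c (Adj E') u v (h u + h v) := by
  have key : ∀ a b : Vtx, Relation.ReflTransGen (Adj E) a b → W c (Adj E') a b (h a + h b) := by
    intro a b hab
    induction hab using Relation.ReflTransGen.head_induction_on with
    | refl => exact ⟨_, Wr.nil b, (CharTwo.add_self_eq_zero (h b)).symm⟩
    | @head a a' ha _ ih =>
      obtain ⟨f, hf, hfc⟩ := ih
      refine ⟨_, Wr.cons (ha.mono hE) hf, ?_⟩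
      have h1 := hc a a' ha
      have h2 := CharTwo.add_self_eq_zero (h a')
      simp only [hfc, h1]
      linear_combination h2
  exact key u v hr

theorem adj_box {F : Set Edg} {a b c d : ℤ} {u v : Vtx} (h : Adj (F ∩ ↑(RE a b c d)) u v) :
    (a ≤ u.1 ∧ u.1 ≤ b ∧ c ≤ u.2 ∧ u.2 ≤ d) ∧ (a ≤ v.1 ∧ v.1 ≤ b ∧ c ≤ v.2 ∧ v.2 ≤ d) ∧
      ((u.1 = v.1 ∧ (v.2 = u.2 + 1 ∨ u.2 = v.2 + 1)) ∨
        (u.2 = v.2 ∧ (v.1 = u.1 + 1 ∨ u.1 = v.1 + 1))) := by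
  obtain ⟨⟨x, y, _ | _⟩, ⟨-, he⟩, hc⟩ := h
  · rw [Finset.mem_coe, mem_RE_false] at he
    rcases hc with ⟨h1, h2⟩ | ⟨h1, h2⟩
    · subst h1 h2
      refine ⟨⟨?_, ?_, ?_, ?_⟩, ⟨?_, ?_, ?_, ?_⟩, Or.inl ⟨?_, Or.inl ?_⟩⟩ <;>
        simp only [src_mk, tgt_false] <;> omega
    · subst h1 h2
      refine ⟨⟨?_, ?_, ?_, ?_⟩, ⟨?_, ?_, ?_, ?_⟩, Or.inl ⟨?_, Or.inr ?_⟩⟩ <;>
        simp only [src_mk, tgt_false] <;> omega
  · rw [Finset.mem_coe, mem_RE_true] at he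
    rcases hc with ⟨h1, h2⟩ | ⟨h1, h2⟩
    · subst h1 h2
      refine ⟨⟨?_, ?_, ?_, ?_⟩, ⟨?_, ?_, ?_, ?_⟩, Or.inr ⟨?_, Or.inl ?_⟩⟩ <;>
        simp only [src_mk, tgt_true] <;> omega
    · subst h1 h2
      refine ⟨⟨?_, ?_, ?_, ?_⟩, ⟨?_, ?_, ?_, ?_⟩, Or.inr ⟨?_, Or.inr ?_⟩⟩ <;>
        simp only [src_mk, tgt_true] <;> omega

/-- Walks in a rectangle which does not meet the half-line. -/
theorem W.zero {c : Vtx} {F E' : Set Edg} {a b C D : ℤ} (hE : F ∩ ↑(RE a b C D) ⊆ E')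
    (h0 : b ≤ c.1 ∨ c.2 < C ∨ D ≤ c.2) {u v : Vtx} (hr : Reach (F ∩ ↑(RE a b C D)) u v) :
    W c (Adj E') u v 0 := by
  have h1 := W.of_reach (c := c) hE (h := fun _ => 0) (fun u v huv => by
    have h2 := adj_box huv
    unfold cn
    rw [if_neg (by omega)]
    simp) hr
  simpa using h1

/-- The side of a vertex. -/
def hs (c : Vtx) (u : Vtx) : ZMod 2 := if u.2 ≤ c.2 then 1 else 0

/-- Walks in a rectangle to the right of the centre. -/
theorem W.right {c : Vtx} {F E' : Set Edg} {a b C D : ℤ} (hE : F ∩ ↑(RE a b C D) ⊆ E')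
    (h0 : c.1 < a) {u v : Vtx} (hr : Reach (F ∩ ↑(RE a b C D)) u v) :
    W c (Adj E') u v (hs c u + hs c v) := by
  refine W.of_reach (c := c) hE (h := hs c) (fun u v huv => ?_) hr
  have h2 := adj_box huv
  unfold cn hs
  split_ifs with h3 h4 h5 h6 h7 <;> first | rfl | decide | (exfalso; omega)

/-- A horizontal and a vertical path through a common rectangle meet. -/
theorem meet {F : Set Edg} {A B C D a b c d : ℤ} (_hA : A ≤ a) (hab : a < b) (_hB : b ≤ B)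
    (hC : C ≤ c) (hcd : c < d) (hD : d ≤ D) {u v u' v' : Vtx}
    (h1 : Reach (F ∩ ↑(RE A B c d)) u v) (hu : u.1 ≤ a) (hv : b ≤ v.1)
    (h2 : Reach (F ∩ ↑(RE a b C D)) u' v') (hu' : u'.2 ≤ c) (hv' : d ≤ v'.2) :
    ∃ w : Vtx, (c ≤ w.2 ∧ w.2 ≤ d) ∧ Reach (F ∩ ↑(RE A B c d)) u w ∧
      Reach (F ∩ ↑(RE a b C D)) w u' := by
  obtain ⟨y1, y2, k1, k2, k3, k4⟩ := sub_LR (a := a) (b := b) (c := c) (d := d) hab
    (by rintro x y ⟨-, h⟩ _ _; simp only [Finset.mem_coe, mem_RE_true] at h; omega)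
    (by rintro x y ⟨-, h⟩ _ _; simp only [Finset.mem_coe, mem_RE_false] at h; omega) h1 hu hv
  obtain ⟨x1, x2, l1, l2, l3, l4⟩ := sub_TB (a := a) (b := b) (c := c) (d := d) hcd
    (by rintro x y ⟨-, h⟩ _ _; simp only [Finset.mem_coe, mem_RE_false] at h; omega)
    (by rintro x y ⟨-, h⟩ _ _; simp only [Finset.mem_coe, mem_RE_true] at h; omega) h2 hu' hv'
  have m := crossings_meet hab hcd.le (F := F) k2 l1
    (k3.mono (by rintro e ⟨⟨h7, -⟩, h8⟩; exact ⟨h7, h8⟩))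
    (l3.mono (by rintro e ⟨⟨h7, -⟩, h8⟩; exact ⟨h7, h8⟩))
  have s3 : F ∩ ↑(RE a b c d) ⊆ F ∩ ↑(RE a b C D) :=
    Set.inter_subset_inter_right _ (by exact_mod_cast RE_subset le_rfl le_rfl hC hD)
  exact ⟨(a, y1), k1, k4, (m.mono s3).trans l4.symm⟩

/-! ### The four crossings -/

/-- Four crossings around the annulus between the distances `m` and `3 m`. -/
def CC (c : Vtx) (m : ℤ) (F : Finset Edg) : Prop :=
  (LRc (c.1 - 3 * m) (c.1 + 3 * m) (c.2 + m) (c.2 + 3 * m) F ∧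
    LRc (c.1 - 3 * m) (c.1 + 3 * m) (c.2 - 3 * m) (c.2 - m) F) ∧
    (TBc (c.1 + m) (c.1 + 3 * m) (c.2 - 3 * m) (c.2 + 3 * m) F ∧
      TBc (c.1 - 3 * m) (c.1 - m) (c.2 - 3 * m) (c.2 + 3 * m) F)

/-- The edges of the annulus. -/
def T (c : Vtx) (m : ℤ) : Set Edg := EV {v | m ≤ rad c v ∧ rad c v ≤ 3 * m}

theorem RE_T {c : Vtx} {m a b C D : ℤ} (ha : c.1 - 3 * m ≤ a) (hb : b ≤ c.1 + 3 * m)
    (hC : c.2 - 3 * m ≤ C) (hD : D ≤ c.2 + 3 * m)
    (h : c.1 + m ≤ a ∨ b ≤ c.1 - m ∨ c.2 + m ≤ C ∨ D ≤ c.2 - m) :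
    (↑(RE a b C D) : Set Edg) ⊆ T c m := by
  rintro ⟨x, y, _ | _⟩ he
  · rw [Finset.mem_coe, mem_RE_false] at he
    simp only [T, EV, rad, Set.mem_ofPred_eq, src_mk, tgt_false, le_max_iff, max_le_iff, le_abs,
      abs_le]
    omega
  · rw [Finset.mem_coe, mem_RE_true] at he
    simp only [T, EV, rad, Set.mem_ofPred_eq, src_mk, tgt_true, le_max_iff, max_le_iff, le_abs,
      abs_le]
    omega

theorem RE_T1 {c : Vtx} {m : ℤ} (hm : 1 ≤ m) :
    (↑(RE (c.1 - 3 * m) (c.1 + 3 * m) (c.2 + m) (c.2 + 3 * m)) : Set Edg) ⊆ T c m :=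
  RE_T le_rfl le_rfl (by omega) le_rfl (by omega)

theorem RE_T2 {c : Vtx} {m : ℤ} (hm : 1 ≤ m) :
    (↑(RE (c.1 - 3 * m) (c.1 + 3 * m) (c.2 - 3 * m) (c.2 - m)) : Set Edg) ⊆ T c m :=
  RE_T le_rfl le_rfl le_rfl (by omega) (by omega)

theorem RE_T3 {c : Vtx} {m : ℤ} (hm : 1 ≤ m) :
    (↑(RE (c.1 + m) (c.1 + 3 * m) (c.2 - 3 * m) (c.2 + 3 * m)) : Set Edg) ⊆ T c m :=
  RE_T (by omega) le_rfl le_rfl le_rfl (by omega)

theorem RE_T4 {c : Vtx} {m : ℤ} (hm : 1 ≤ m) :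
    (↑(RE (c.1 - 3 * m) (c.1 - m) (c.2 - 3 * m) (c.2 + 3 * m)) : Set Edg) ⊆ T c m :=
  RE_T le_rfl (by omega) le_rfl le_rfl (by omega)

/-- Four crossings give a closed walk around the centre. -/
theorem closed {c : Vtx} {m : ℤ} (hm : 1 ≤ m) {F : Finset Edg} (h : CC c m F) {E' : Set Edg}
    (hE : ↑F ∩ T c m ⊆ E') : ∃ v, W c (Adj E') v v 1 := by
  obtain ⟨⟨⟨t, t', ht, ht', hT⟩, ⟨b, b', hb, hb', hB⟩⟩, ⟨r, r', hr, hr', hR⟩,
    ⟨l, l', hl, hl', hL⟩⟩ := h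
  have hT' := hT.mono (Set.inter_subset_inter_right (↑F) (Finset.coe_subset.2 LRE_subset_RE))
  have hB' := hB.mono (Set.inter_subset_inter_right (↑F) (Finset.coe_subset.2 LRE_subset_RE))
  have hR' := hR.mono (Set.inter_subset_inter_right (↑F) (Finset.coe_subset.2 TBE_subset_RE))
  have hL' := hL.mono (Set.inter_subset_inter_right (↑F) (Finset.coe_subset.2 TBE_subset_RE))
  have i1 := (Set.inter_subset_inter_right (↑F : Set Edg) (RE_T1 (c := c) hm)).trans hE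
  have i2 := (Set.inter_subset_inter_right (↑F : Set Edg) (RE_T2 (c := c) hm)).trans hE
  have i3 := (Set.inter_subset_inter_right (↑F : Set Edg) (RE_T3 (c := c) hm)).trans hE
  have i4 := (Set.inter_subset_inter_right (↑F : Set Edg) (RE_T4 (c := c) hm)).trans hE
  -- top and right
  obtain ⟨w1, hw1, p1, q1⟩ := meet (by omega) (by omega) le_rfl (by omega) (by omega) le_rfl hT'
    (by simp only; omega) le_rfl hR' (by simp only; omega) le_rfl
  -- bottom and right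
  obtain ⟨w2, hw2, p2, q2⟩ := meet (by omega) (by omega) le_rfl le_rfl (by omega) (by omega) hB'
    (by simp only; omega) le_rfl hR' le_rfl (by simp only; omega)
  -- bottom and left
  obtain ⟨w3, hw3, p3, q3⟩ := meet le_rfl (by omega) (by omega) le_rfl (by omega) (by omega) hB'
    le_rfl (by simp only; omega) hL' le_rfl (by simp only; omega)
  -- top and left
  obtain ⟨w4, hw4, p4, q4⟩ := meet le_rfl (by omega) (by omega) (by omega) (by omega) le_rfl hT'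
    le_rfl (by simp only; omega) hL' (by simp only; omega) le_rfl
  have a1 := W.zero (c := c) i1 (by omega) p1
  have a2 := W.right (c := c) i3 (by omega) q1
  have a3 := W.right (c := c) i3 (by omega) q2.symm
  have a4 := W.zero (c := c) i2 (by omega) p2.symm
  have a5 := W.zero (c := c) i2 (by omega) p3
  have a6 := W.zero (c := c) i4 (by omega) q3
  have a7 := W.zero (c := c) i4 (by omega) q4.symm
  have a8 := W.zero (c := c) i1 (by omega) p4.symm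
  have key := ((((((a1.trans a2).trans a3).trans a4).trans a5).trans a6).trans a7).trans a8
  refine ⟨(c.1 - 3 * m, t), ?_⟩
  convert key using 1
  have e1 : hs c w1 = 0 := by unfold hs; rw [if_neg (by omega)]
  have e2 : hs c w2 = 1 := by unfold hs; rw [if_pos (by omega)]
  have e3 : hs c (r, c.2 - 3 * m) = 1 := by
    unfold hs; rw [if_pos (by simp only; omega)]
  rw [e1, e2, e3]
  decide

theorem not_noc {c : Vtx} {d k : ℕ} {m : ℤ} (hm : 1 ≤ m) (hd : (d:ℤ) < m) (hk : 3 * m ≤ k)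
    {F : Finset Edg} (h : CC c m F) : ¬ NoC c d k ↑F := by
  intro hN
  obtain ⟨v, f, hf, hfc⟩ := closed hm h (E' := ↑F ∩ EV (An c d k)) (by
    apply Set.inter_subset_inter_right
    rintro e ⟨⟨h1, h2⟩, h3, h4⟩
    refine ⟨⟨?_, ?_⟩, ?_, ?_⟩
    · exact lt_of_lt_of_le hd h1
    · exact h2.trans hk
    · exact lt_of_lt_of_le hd h3
    · exact h4.trans hk)
  have := hN v f hf
  rw [hfc] at this
  exact absurd this (by decide)

/-! ### The probability of four crossings -/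

theorem pr_CC {q : ℝ} (h0 : 0 ≤ q) (h1 : q ≤ 1) {c : Vtx} {m : ℤ} (hm : 1 ≤ m) {S : Finset Edg}
    (hS : ∀ e ∈ T c m, e ∈ S) : (hh q (6 * m) (2 * m))^4 ≤ Pr (fun _ => q) S (CC c m) := by
  have s1 : LRE (c.1 - 3 * m) (c.1 + 3 * m) (c.2 + m) (c.2 + 3 * m) ⊆ S :=
    fun e he => hS e (RE_T1 hm (Finset.mem_coe.2 (LRE_subset_RE he)))
  have s2 : LRE (c.1 - 3 * m) (c.1 + 3 * m) (c.2 - 3 * m) (c.2 - m) ⊆ S :=
    fun e he => hS e (RE_T2 hm (Finset.mem_coe.2 (LRE_subset_RE he)))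
  have s3 : TBE (c.1 + m) (c.1 + 3 * m) (c.2 - 3 * m) (c.2 + 3 * m) ⊆ S :=
    fun e he => hS e (RE_T3 hm (Finset.mem_coe.2 (TBE_subset_RE he)))
  have s4 : TBE (c.1 - 3 * m) (c.1 - m) (c.2 - 3 * m) (c.2 + 3 * m) ⊆ S :=
    fun e he => hS e (RE_T4 hm (Finset.mem_coe.2 (TBE_subset_RE he)))
  have e1 := pr_LRc q s1
  have e2 := pr_LRc q s2
  have e3 := pr_TBc q s3
  have e4 := pr_TBc q s4
  have d1 : c.1 + 3 * m - (c.1 - 3 * m) = 6 * m := by ring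
  have d2 : c.2 + 3 * m - (c.2 + m) = 2 * m := by ring
  have d3 : c.2 - m - (c.2 - 3 * m) = 2 * m := by ring
  have d4 : c.2 + 3 * m - (c.2 - 3 * m) = 6 * m := by ring
  have d5 : c.1 + 3 * m - (c.1 + m) = 2 * m := by ring
  have d6 : c.1 - m - (c.1 - 3 * m) = 2 * m := by ring
  rw [d1, d2] at e1
  rw [d1, d3] at e2
  rw [d4, d5] at e3
  rw [d4, d6] at e4
  have i1 := Pr_harris (okq h0 h1) (LRc_incr S (c.1 - 3 * m) (c.1 + 3 * m) (c.2 + m) (c.2 + 3 * m))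
    (LRc_incr S (c.1 - 3 * m) (c.1 + 3 * m) (c.2 - 3 * m) (c.2 - m))
  have i2 := Pr_harris (okq h0 h1) (TBc_incr S (c.1 + m) (c.1 + 3 * m) (c.2 - 3 * m) (c.2 + 3 * m))
    (TBc_incr S (c.1 - 3 * m) (c.1 - m) (c.2 - 3 * m) (c.2 + 3 * m))
  have c1 : IncrE S (fun F => LRc (c.1 - 3 * m) (c.1 + 3 * m) (c.2 + m) (c.2 + 3 * m) F ∧
      LRc (c.1 - 3 * m) (c.1 + 3 * m) (c.2 - 3 * m) (c.2 - m) F) :=
    fun F G hFG _ hF => ⟨hF.1.mono hFG, hF.2.mono hFG⟩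
  have c2 : IncrE S (fun F => TBc (c.1 + m) (c.1 + 3 * m) (c.2 - 3 * m) (c.2 + 3 * m) F ∧
      TBc (c.1 - 3 * m) (c.1 - m) (c.2 - 3 * m) (c.2 + 3 * m) F) :=
    fun F G hFG _ hF => ⟨hF.1.mono hFG, hF.2.mono hFG⟩
  have i3 := Pr_harris (okq h0 h1) c1 c2
  rw [e1, e2] at i1
  rw [e3, e4] at i2
  have hn : 0 ≤ hh q (6 * m) (2 * m) := hh_nonneg h0 h1 _ _
  have hn2 : 0 ≤ hh q (6 * m) (2 * m) * hh q (6 * m) (2 * m) := mul_nonneg hn hn
  calc (hh q (6 * m) (2 * m))^4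
      = (hh q (6 * m) (2 * m) * hh q (6 * m) (2 * m)) *
        (hh q (6 * m) (2 * m) * hh q (6 * m) (2 * m)) := by ring
    _ ≤ _ := mul_le_mul i1 i2 hn2 (hn2.trans i1)
    _ ≤ _ := i3

theorem LRc_loc {a b C D : ℤ} {F G : Finset Edg} (h : ∀ e ∈ LRE a b C D, e ∈ F → e ∈ G)
    (hF : LRc a b C D F) : LRc a b C D G := by
  obtain ⟨y, y', h1, h2, h3⟩ := hF
  refine ⟨y, y', h1, h2, h3.mono ?_⟩
  rintro e ⟨he1, he2⟩
  exact ⟨h e he2 he1, he2⟩

theorem TBc_loc {a b C D : ℤ} {F G : Finset Edg} (h : ∀ e ∈ TBE a b C D, e ∈ F → e ∈ G)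
    (hF : TBc a b C D F) : TBc a b C D G := by
  obtain ⟨y, y', h1, h2, h3⟩ := hF
  refine ⟨y, y', h1, h2, h3.mono ?_⟩
  rintro e ⟨he1, he2⟩
  exact ⟨h e he2 he1, he2⟩

theorem CC_loc {c : Vtx} {m : ℤ} (hm : 1 ≤ m) {F G : Finset Edg}
    (h : ∀ e ∈ T c m, e ∈ F → e ∈ G) (hF : CC c m F) : CC c m G := by
  obtain ⟨⟨h1, h2⟩, h3, h4⟩ := hF
  exact ⟨⟨LRc_loc (fun e he => h e (RE_T1 hm (Finset.mem_coe.2 (LRE_subset_RE he)))) h1,
    LRc_loc (fun e he => h e (RE_T2 hm (Finset.mem_coe.2 (LRE_subset_RE he)))) h2⟩,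
    TBc_loc (fun e he => h e (RE_T3 hm (Finset.mem_coe.2 (TBE_subset_RE he)))) h3,
    TBc_loc (fun e he => h e (RE_T4 hm (Finset.mem_coe.2 (TBE_subset_RE he)))) h4⟩

/-- The probability that there is no circuit at `J` scales. -/
theorem annuli {κ : ℝ} (hκ : ∀ n, Win (1/2) κ n) {d k : ℕ} (c : Vtx) (S : Finset Edg)
    (hS : ∀ e ∈ EV (An c d k), e ∈ S) (J : ℕ) (hJ : (d + 1) * 4 ^ J ≤ k) :
    Pr (fun _ => (1/2:ℝ)) S (fun F => NoC c d k ↑F) ≤ (1 - κ ^ 4) ^ J := by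
  have ok : Ok (fun _ : Edg => (1/2:ℝ)) := okq (by norm_num) (by norm_num)
  have hpow : ∀ j, j < J → 4 * ((d + 1) * 4 ^ j) ≤ k := by
    intro j hj
    have h1 : 4 * 4 ^ j ≤ 4 ^ J := by
      rw [← pow_succ']
      exact Nat.pow_le_pow_right (by norm_num) hj
    calc 4 * ((d + 1) * 4 ^ j) = (d + 1) * (4 * 4 ^ j) := by ring
      _ ≤ (d + 1) * 4 ^ J := Nat.mul_le_mul_left _ h1
      _ ≤ k := hJ
  have hge : ∀ j, d + 1 ≤ (d + 1) * 4 ^ j := fun j => Nat.le_mul_of_pos_right _ (by positivity)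
  have hstep : ∀ i j, i < j → 4 * ((d + 1) * 4 ^ i) ≤ (d + 1) * 4 ^ j := by
    intro i j hij
    have h1 : 4 * 4 ^ i ≤ 4 ^ j := by
      rw [← pow_succ']
      exact Nat.pow_le_pow_right (by norm_num) hij
    calc 4 * ((d + 1) * 4 ^ i) = (d + 1) * (4 * 4 ^ i) := by ring
      _ ≤ (d + 1) * 4 ^ j := Nat.mul_le_mul_left _ h1
  refine le_trans ?_ (WA_prod ok S (fun j => T c (((d + 1) * 4 ^ j : ℕ) : ℤ))
    (fun j F => ¬ CC c (((d + 1) * 4 ^ j : ℕ) : ℤ) F) (x := 1 - κ ^ 4) J ?_ ?_ ?_)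
  · apply Pr_mono ok
    intro F _ hF j hj hC
    have h1 := hpow j hj
    have h2 := hge j
    exact not_noc (by omega) (by omega) (by omega) hC hF
  · intro i j hij _
    rw [Set.disjoint_left]
    rintro e ⟨⟨h1, h2⟩, -⟩ ⟨⟨h3, h4⟩, -⟩
    have h5 := hstep i j hij
    have h6 := hge i
    omega
  · intro j _ F G _ _ hFG
    have h2 := hge j
    exact not_congr ⟨CC_loc (by omega) fun e he h => (hFG e he).1 h,
      CC_loc (by omega) fun e he h => (hFG e he).2 h⟩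
  · intro j hj
    have h1 := hpow j hj
    have h2 := hge j
    have h3 := pr_CC (q := 1/2) (by norm_num) (by norm_num) (c := c)
      (m := (((d + 1) * 4 ^ j : ℕ) : ℤ)) (by omega) (S := S) (by
        rintro e ⟨⟨h4, h5⟩, h6, h7⟩
        apply hS
        exact ⟨⟨by omega, by omega⟩, by omega, by omega⟩)
    have h4 : κ ^ 4 ≤ (hh (1/2) (6 * (((d + 1) * 4 ^ j : ℕ) : ℤ))
        (2 * (((d + 1) * 4 ^ j : ℕ) : ℤ)))^4 :=
      pow_le_pow_left₀ (hκ 1).kpos.le ((hκ (2 * ((d + 1) * 4 ^ j))).hhge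
        (k := 2 * ((d + 1) * 4 ^ j)) (by omega) le_rfl (by omega) (by omega)
        (by push_cast; omega)) 4
    rw [Pr_not]
    linarith

theorem noc : ∃ C c0 : ℝ, 0 < C ∧ 0 < c0 ∧ ∀ (c : Vtx) (d k : ℕ), 1 ≤ d → d ≤ k →
    ∀ S : Finset Edg, (∀ e ∈ EV (An c d k), e ∈ S) →
      Pr (fun _ => (1/2:ℝ)) S (fun F => NoC c d k ↑F) ≤ C * ((d:ℝ) / k) ^ c0 := by
  obtain ⟨κ, hκ, hwin⟩ := H12S.win_half
  have hk : κ ≤ 1 / 2 := (hwin 1).kle
  have hk4 : κ ^ 4 ≤ (1 / 2) ^ 4 := pow_le_pow_left₀ hκ.le hk 4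
  have hk40 : 0 < κ ^ 4 := by positivity
  set a : ℝ := 1 - κ ^ 4 with ha
  have ha0 : 0 < a := by rw [ha]; norm_num at hk4; linarith
  have ha1 : a < 1 := by rw [ha]; linarith
  set c0 : ℝ := -Real.log a / Real.log 4 with hc
  have hlog4 : 0 < Real.log 4 := Real.log_pos (by norm_num)
  have hloga : Real.log a < 0 := Real.log_neg ha0 ha1
  have hc0 : 0 < c0 := div_pos (by linarith) hlog4
  have h4c : (4:ℝ) ^ (-c0) = a := by
    rw [Real.rpow_def_of_pos (by norm_num), hc]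
    have : Real.log 4 * -(-Real.log a / Real.log 4) = Real.log a := by field_simp
    rw [this, Real.exp_log ha0]
  refine ⟨1 / a * 2 ^ c0 + 1, c0, by positivity, hc0, ?_⟩
  intro c d k hd hdk S hS
  have hok : Ok (fun _ : Edg => (1/2:ℝ)) := okq (by norm_num) (by norm_num)
  have hd' : (0:ℝ) < d := by exact_mod_cast hd
  have hk' : (0:ℝ) < k := by exact_mod_cast (lt_of_lt_of_le hd hdk)
  rcases Nat.eq_or_lt_of_le hdk with h | h
  · have h1 : ((d:ℝ) / k) ^ c0 = 1 := by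
      rw [h, div_self hk'.ne', Real.one_rpow]
    rw [h1, mul_one]
    refine (Pr_le_one hok _ _).trans ?_
    have : 0 ≤ 1 / a * (2:ℝ) ^ c0 := by positivity
    linarith
  · set J := Nat.log 4 (k / (d + 1)) with hJ
    have hρR : d + 1 ≤ k := h
    have hρ0 : 0 < d + 1 := by omega
    have hdiv : k / (d + 1) ≠ 0 := (Nat.div_pos hρR hρ0).ne'
    have h1 : (d + 1) * 4 ^ J ≤ k := by
      have h2 : 4 ^ J ≤ k / (d + 1) := Nat.pow_log_le_self 4 hdiv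
      calc (d + 1) * 4 ^ J ≤ (d + 1) * (k / (d + 1)) := Nat.mul_le_mul_left _ h2
        _ ≤ k := Nat.mul_div_le k (d + 1)
    have h2 : k < (d + 1) * 4 ^ (J + 1) := by
      have h3 : k / (d + 1) < 4 ^ (J + 1) := Nat.lt_pow_succ_log_self (by norm_num) _
      have h4 := (Nat.div_lt_iff_lt_mul hρ0).mp h3
      rwa [mul_comm]
    have hkey : a ^ J ≤ 1 / a * (((d + 1 : ℕ) : ℝ) / k) ^ c0 := by
      have h5 : ((1:ℝ) / 4 ^ (J + 1)) ≤ ((d + 1 : ℕ) : ℝ) / k := by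
        rw [div_le_div_iff₀ (by positivity) hk']
        have : (k:ℝ) ≤ ((d + 1 : ℕ) : ℝ) * 4 ^ (J + 1) := by exact_mod_cast h2.le
        linarith
      have h6 : ((1:ℝ) / 4 ^ (J + 1)) ^ c0 = a ^ (J + 1) := by
        rw [← h4c, ← Real.rpow_natCast ((4:ℝ) ^ (-c0)) (J + 1), ← Real.rpow_mul (by norm_num),
          one_div, Real.inv_rpow (by positivity), ← Real.rpow_natCast, ← Real.rpow_mul
          (by norm_num), ← Real.rpow_neg (by norm_num)]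
        congr 1
        push_cast
        ring
      have h7 : a ^ (J + 1) ≤ (((d + 1 : ℕ) : ℝ) / k) ^ c0 := by
        rw [← h6]
        exact Real.rpow_le_rpow (by positivity) h5 hc0.le
      rw [one_div, inv_mul_eq_div, le_div_iff₀ ha0, ← pow_succ]
      exact h7
    have k1 := annuli hwin c S hS J h1
    have h3 : (((d + 1 : ℕ) : ℝ) / k) ^ c0 ≤ 2 ^ c0 * ((d:ℝ) / k) ^ c0 := by
      rw [← Real.mul_rpow (by norm_num) (by positivity)]
      apply Real.rpow_le_rpow (by positivity) _ hc0.le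
      rw [← mul_div_assoc]
      apply div_le_div_of_nonneg_right _ hk'.le
      push_cast
      have : (1:ℝ) ≤ d := by exact_mod_cast hd
      linarith
    have h4 : 0 ≤ ((d:ℝ) / k) ^ c0 := by positivity
    calc Pr (fun _ => (1/2:ℝ)) S (fun F => NoC c d k ↑F)
        ≤ 1 / a * (((d + 1 : ℕ) : ℝ) / k) ^ c0 := k1.trans hkey
      _ ≤ 1 / a * (2 ^ c0 * ((d:ℝ) / k) ^ c0) :=
          mul_le_mul_of_nonneg_left h3 (by positivity)
      _ ≤ (1 / a * 2 ^ c0 + 1) * ((d:ℝ) / k) ^ c0 := by nlinarith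

end Pool.Agent.TH828.FA
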